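import Pool.Agent.P.MP_37b794_lc.I0.Main

/-! From the large cardinal hypothesis `I0`: a transitive model of ZFC in which `ℵ_ω` is a strong
limit cardinal and `ℵ_(ω+1)` is measurable in `L(P(ℵ_ω))`. -/

universe u

open ZFSet Pool.Agent.Lib.Forcing Pool.Agent.P.MP_af0a18_lc Pool.Agent.P.MP_37b794_lc

theorem Pool.Agent.Results.MP_37b794_lc.Measurable.result (lam : Ordinal.{u})
    (j : ZFSet.{u} → ZFSet.{u})
    (hmaps : ∀ x ∈ constr Set.univ (vonNeumann (lam + 1)),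
      j x ∈ constr Set.univ (vonNeumann (lam + 1)))
    (helem : ∀ (φ : Fml) (e : ℕ → ZFSet.{u}), (∀ i, e i ∈ constr Set.univ (vonNeumann (lam + 1))) →
      (Sat (constr Set.univ (vonNeumann (lam + 1))) φ e ↔
        Sat (constr Set.univ (vonNeumann (lam + 1))) φ (fun i => j (e i))))
    (hcrit : ∃ κ < lam, j κ.toZFSet ≠ κ.toZFSet) :
    ∃ M : Set ZFSet.{u}, IsZFModel M ∧ Choice M ∧ ∃ (a : ℕ → ZFSet.{u}) (l μ b : ZFSet.{u}),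
      a 0 = omega ∧
      (∀ n, a n ∈ M ∧ IsCardinalIn M (a n) ∧ a n ∈ a (n + 1) ∧
        ∀ κ ∈ a (n + 1), IsCardinalIn M κ → κ ⊆ a n) ∧
      (∀ x, x ∈ l ↔ ∃ n, x ∈ a n) ∧
      (∀ γ ∈ l, ∀ y ∈ M, (∀ z ∈ y, z ⊆ γ) → CardLt M y l) ∧
      μ ∈ M ∧ IsCardinalIn M μ ∧ l ∈ μ ∧ (∀ κ ∈ μ, IsCardinalIn M κ → κ ⊆ l) ∧
      b ∈ M ∧ (∀ z, z ∈ b ↔ z ∈ M ∧ z ⊆ l) ∧ MeasurableIn (constr M b) μ :=
  I0.main lam ⟨subset_rfl, hmaps, helem⟩ hcrit
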