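import Pool.Agent.P.MP_37b794_lc.Main

/-! `L(V_(ℵ_ω+1))` is the least transitive model of ZF containing the ordinals and `V_(ℵ_ω+1)`,
and `ℵ_ω⁺` is not measurable in it, nor in any larger transitive model of ZF. -/

universe u

open ZFSet Cardinal Ordinal Pool.Agent.Lib.Forcing Pool.Agent.P.MP_37b794_lc

theorem Pool.Agent.Results.MP_37b794_lc.NotMeasurable.result :
    let V : ZFSet.{u} := vonNeumann ((ℵ_ ω).ord + 1)
    let μ : ZFSet.{u} := (Order.succ (ℵ_ ω)).ord.toZFSet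
    let L : Set ZFSet.{u} := constr Set.univ V
    (IsZFModel L ∧ (∀ o : Ordinal.{u}, o.toZFSet ∈ L) ∧ V ∈ L ∧
      ∀ N : Set ZFSet.{u}, IsZFModel N → (∀ o : Ordinal.{u}, o.toZFSet ∈ N) → V ∈ N → L ⊆ N) ∧
    ¬ MeasurableIn L μ ∧
    ∀ N : Set ZFSet.{u}, IsZFModel N → (∀ o : Ordinal.{u}, o.toZFSet ∈ N) → V ∈ N →
      ¬ MeasurableIn N μ := by
  intro V μ L
  have h := constr_facts (b := V) (isTransitive_vonNeumann _)
    (mem_vonNeumann.2 (by simp))
  exact ⟨h, not_measurable_aleph_omega h.1 h.2.1 h.2.2.1,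
    fun N hN hord hV => not_measurable_aleph_omega hN hord hV⟩
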